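import Pool.Agent.H568.NC.Asm

/-!
Analyticity is not preserved by mutual (nonlinear) condensations of spaces of continuous functions
with the topology of pointwise convergence: a countable Tychonoff space `X` and a non-analytic
Tychonoff space `Z` such that `C_p(X)` and `C_p(Z)` condense onto each other.

`Y` is a non-analytic subset of the Cantor set, `M = T ∪ Y` where `T` is the set of nodes of the
binary tree (isolated points converging to the points of `Y`), `X` is a countable space with one
non-isolated point, and `Z` is the topological sum of `M` and `X`.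
-/

set_option autoImplicit false

namespace Pool.Agent.Results.MP_1f8704_gt.NonlinearCondensations

open Set Filter Topology Pool.Agent.H568.NC

/-- `C_p(X)`: the real continuous functions on `X` with the topology of pointwise convergence
(the subspace topology of the product `X → ℝ`). -/
abbrev Cp (X : Type) [TopologicalSpace X] : Type := {f : X → ℝ // Continuous f}

/-- A condensation is a continuous bijection. -/
def IsCondensation {A B : Type} [TopologicalSpace A] [TopologicalSpace B] (φ : A → B) : Prop :=
  Continuous φ ∧ Function.Bijective φ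

/-- A space is analytic if it is a continuous image of the space of irrationals `ω^ω`. -/
def IsAnalytic (X : Type) [TopologicalSpace X] : Prop :=
  ∃ p : (ℕ → ℕ) → X, Continuous p ∧ Function.Surjective p

lemma exists_condensation {X Z : Type} [TopologicalSpace X] [TopologicalSpace Z]
    {A : Set (X → ℝ)} {B : Set (Z → ℝ)} (hA : ∀ f, Continuous f ↔ f ∈ A)
    (hB : ∀ f, Continuous f ↔ f ∈ B) (h : Cd A B) : ∃ φ : Cp X → Cp Z, IsCondensation φ := by
  obtain ⟨f, hf, bf⟩ := h
  have hm : ∀ x : Cp X, Continuous (f x.1) := fun x => (hB _).2 (bf.mapsTo ((hA _).1 x.2))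
  refine ⟨fun x => ⟨f x.1, hm x⟩, ?_, ?_, ?_⟩
  · refine Continuous.subtype_mk ?_ _
    exact hf.comp_continuous continuous_subtype_val fun x => (hA _).1 x.2
  · intro x y hxy
    exact Subtype.ext (bf.injOn ((hA _).1 x.2) ((hA _).1 y.2) (congrArg Subtype.val hxy))
  · rintro ⟨z, hz⟩
    obtain ⟨x, hx, hxz⟩ := bf.surjOn ((hB _).1 hz)
    exact ⟨⟨x, (hA _).2 hx⟩, Subtype.ext hxz⟩

/-- A countable nonempty space is analytic. -/
lemma analytic_of_countable (X : Type) [TopologicalSpace X] [Countable X] [Nonempty X] :
    IsAnalytic X := by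
  obtain ⟨e, he⟩ := exists_surjective_nat X
  refine ⟨fun n => e (n 0), ?_, fun x => ?_⟩
  · exact (continuous_of_discreteTopology (f := e)).comp (continuous_apply 0)
  · obtain ⟨k, hk⟩ := he x
    exact ⟨fun _ => k, hk⟩

/-- The answer to Q2 is negative: there are a countable (hence analytic) Tychonoff space `X` and a
non-analytic Tychonoff space `Z` such that `C_p(X)` condenses onto `C_p(Z)` and `C_p(Z)` condenses
onto `C_p(X)`. -/
theorem result :
    ∃ (X Z : Type) (_ : TopologicalSpace X) (_ : TopologicalSpace Z),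
      T35Space X ∧ T35Space Z ∧ Countable X ∧ IsAnalytic X ∧ ¬ IsAnalytic Z ∧
      (∃ φ : Cp X → Cp Z, IsCondensation φ) ∧ (∃ ψ : Cp Z → Cp X, IsCondensation ψ) := by
  obtain ⟨Y, hY⟩ := exists_not_analyticSet
  obtain ⟨tM, hM1, hM2, hM3⟩ := exists_M Y
  obtain ⟨tX, hX1, hX2⟩ := exists_filterSpace (FJ Y) (FJ_le Y)
  have hA : ∀ f : Option JJ → ℝ, @Continuous _ _ tX _ f ↔ f ∈ CX Y := hX2
  have hB : ∀ f : (ℕ ⊕ Y) ⊕ Option JJ → ℝ, Continuous f ↔ f ∈ CZ Y := by
    intro f
    rw [continuous_sum_dom]
    refine and_congr ?_ ?_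
    · exact hM2 (f ∘ Sum.inl)
    · exact hA (f ∘ Sum.inr)
  refine ⟨Option JJ, (ℕ ⊕ Y) ⊕ Option JJ, tX, inferInstance, hX1, t35Space_sum, inferInstance,
    analytic_of_countable _, ?_, ?_, ?_⟩
  · refine not_analytic_of_isClosedEmbedding hY (fun y => Sum.inl (Sum.inr y)) ?_
    exact IsClosedEmbedding.inl.comp hM3
  · exact exists_condensation hA hB (cd_X_Z Y)
  · exact exists_condensation hB hA (cd_Z_X Y)

end Pool.Agent.Results.MP_1f8704_gt.NonlinearCondensations
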